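import Pool.Agent.Lib.P1346Z.FinalZ

/-!
# MP_1346e8_lc: ordered graphs whose modular decompositions have biclique-free or co-biclique-free quotients
-/

namespace Pool.Agent.Results.MP_1346e8_lc.BicliqueFreeQuotients

open P1346e8

/-- Let `C` be a class of ordered graphs. Suppose that the vertices of every member can be partitioned
into `N` parts such that for any two parts (possibly equal) the graph of the edges between them or the graph
of the non-edges between them has `BfDec t`: every set of at least two vertices can be divided into at
least two blocks with constant adjacency between any two of them, such that the quotient graph or its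
complement contains no `K_{t,t}`. Then `C` is transduction equivalent to a permutation class. (For `N = 1`:
every prime quotient of the modular decompositions of the reducts, or its complement, contains no `K_{t,t}`;
the order of the ordered graphs is arbitrary and the depth of the decompositions is unbounded.) -/
theorem result (C : Set Str) (hC : ∀ A ∈ C, A.IsOrderedGraph) (N t : ℕ)
    (h : ∀ A ∈ C, ∃ κ : A.V → Fin N, ∀ α β, BfDec t (pairGraph (A.r 0) κ α β True) ∨
      BfDec t (pairGraph (A.r 0) κ α β False)) :
    ∃ P : Set Str, IsPermClass P ∧ IsTransductionOf C P ∧ IsTransductionOf P C :=
  Z.final_bf C hC N t h

end Pool.Agent.Results.MP_1346e8_lc.BicliqueFreeQuotients
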