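import Pool.Agent.Lib.P1346L.Cover

/-!
# MP_1346e8_lc: ordered graphs with vertex partitions into pairs of bounded linear rank-width
-/

namespace Pool.Agent.Results.MP_1346e8_lc.LinRankWidthPairs

open P1346e8

/-- Let `C` be a class of ordered graphs. Suppose that the vertices of every member can be partitioned
into `N` parts such that for any two parts (possibly equal) the graph of the edges between them has linear
rank-width at most `k`. Then `C` is transduction equivalent to a permutation class. (For `N = 1`: the class
of the reducts has bounded linear rank-width; the order of the ordered graphs is arbitrary.) -/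
theorem result (C : Set Str) (hC : ∀ A ∈ C, A.IsOrderedGraph) (k N : ℕ)
    (h : ∀ A ∈ C, ∃ κ : A.V → Fin N, ∀ α β, LinRankWidthLE k (pairRel (A.r 0) κ α β)) :
    ∃ P : Set Str, IsPermClass P ∧ IsTransductionOf C P ∧ IsTransductionOf P C :=
  L.final_cover C hC k N h

end Pool.Agent.Results.MP_1346e8_lc.LinRankWidthPairs
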