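import Pool.Agent.Lib.P1346e8.Final

/-!
# MP_1346e8_lc: ordered graph classes with sparse corners are equivalent to permutation classes
-/

namespace Pool.Agent.Results.MP_1346e8_lc.SparseCorners

open P1346e8

/-- Let `C` be a class of ordered graphs which, after expansion by `m` unary predicates `U`, have
first-order definable relations `R j`, `j < N`, between the rows `U (a j)`, linearly ordered by the
formula `ρ j`, and the columns `U (b j)`, linearly ordered by the formula `γ j`, whose corner relations
contain no `K_{t,t}`, such that the adjacency relation is first-order definable from the `R j`, the order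
and `U`. Then `C` is transduction equivalent to a permutation class. -/
theorem result (C : Set Str) (hC : ∀ A ∈ C, A.IsOrderedGraph) (t m N : ℕ) (a b : Fin N → Fin m)
    (ρ γ R : Fin N → Fml (Fin 2) (Fin m) 2) (ε : Fml (Option (Fin N)) (Fin m) 2)
    (h : ∀ A ∈ C, ∃ U : Fin m → A.V → Prop,
      (∀ j, StrictLin (U (a j)) (fun x y => (ρ j).Sat A.r U ![x, y]) ∧
        StrictLin (U (b j)) (fun x y => (γ j).Sat A.r U ![x, y]) ∧
        BicliqueFree t (Corner (U (a j)) (fun x y => (ρ j).Sat A.r U ![x, y])
          (U (b j)) (fun x y => (γ j).Sat A.r U ![x, y]) (fun x y => (R j).Sat A.r U ![x, y]))) ∧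
      ∀ x y, A.r 0 x y ↔ ε.Sat (blockRel A U a b R) U ![x, y]) :
    ∃ P : Set Str, IsPermClass P ∧ IsTransductionOf C P ∧ IsTransductionOf P C :=
  final C hC t m N a b ρ γ R ε h

end Pool.Agent.Results.MP_1346e8_lc.SparseCorners
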