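import Pool.Agent.Lib.P1346T.FinalT

/-!
# MP_1346e8_lc: ordered graphs with vertex partitions into totally decomposable pairs
-/

namespace Pool.Agent.Results.MP_1346e8_lc.TotallyDecomposable

open P1346e8

/-- Let `C` be a class of ordered graphs. Suppose that the vertices of every member can be partitioned
into `N` parts such that for any two parts (possibly equal) the adjacency relation between them is totally
decomposable. Then `C` is transduction equivalent to a permutation class. (For `N = 1` this contains all
classes of ordered graphs whose reducts are cographs; the order is arbitrary.) -/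
theorem result (C : Set Str) (hC : ∀ A ∈ C, A.IsOrderedGraph) (N : ℕ)
    (h : ∀ A ∈ C, ∃ κ : A.V → Fin N, ∀ α β,
      TotDec (A.r 0) (fun x => κ x = α) (fun y => κ y = β)) :
    ∃ P : Set Str, IsPermClass P ∧ IsTransductionOf C P ∧ IsTransductionOf P C :=
  T.final_tot C hC N h

end Pool.Agent.Results.MP_1346e8_lc.TotallyDecomposable
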